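import Pool.Agent.Y76.FPR.Main

/-!
Excellent regular rings of prime characteristic are F-pure regular.
-/

set_option autoImplicit false

namespace Pool.Agent.Results.MP_9ff724_al.ExcellentRegular

open TensorProduct

universe u

/-- The `R`-module `F^e_* R`: the abelian group `R`, on which `r` acts as multiplication by
`r ^ p ^ e`. -/
def FStar (R : Type u) (_p _e : ℕ) : Type u := R

instance (R : Type u) [CommRing R] (p e : ℕ) : AddCommGroup (FStar R p e) :=
  inferInstanceAs (AddCommGroup R)

instance (R : Type u) [CommRing R] (p e : ℕ) [Fact p.Prime] [CharP R p] :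
    Module R (FStar R p e) :=
  Module.compHom R (iterateFrobenius R p e)

/-- The `R`-linear map `R → F^e_* R`, `r ↦ F^e_* (c r ^ p ^ e)`. -/
def lam (R : Type u) [CommRing R] (p e : ℕ) [Fact p.Prime] [CharP R p] (c : R) :
    R →ₗ[R] FStar R p e where
  toFun r := (c * r ^ p ^ e : R)
  map_add' r s := by
    change c * (r + s) ^ p ^ e = c * r ^ p ^ e + c * s ^ p ^ e
    rw [add_pow_expChar_pow, mul_add]
  map_smul' r s := by
    change c * (r * s) ^ p ^ e = iterateFrobenius R p e r * (c * s ^ p ^ e)
    rw [iterateFrobenius_def]; ring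

/-- Purity of a map of `R`-modules: it stays injective after tensoring with any module. -/
def IsPureMap {R : Type u} [CommRing R] {M N : Type u} [AddCommGroup M] [Module R M]
    [AddCommGroup N] [Module R N] (f : M →ₗ[R] N) : Prop :=
  ∀ (P : Type u) [AddCommGroup P] [Module R P], Function.Injective (f.rTensor P)

/-- F-pure regularity: for every `c` in no minimal prime some `λ^e_c`, `e ≥ 1`, is pure. -/
def IsFPureRegular (R : Type u) [CommRing R] (p : ℕ) [Fact p.Prime] [CharP R p] : Prop :=
  ∀ c : R, (∀ P ∈ minimalPrimes R, c ∉ P) → ∃ e : ℕ, 1 ≤ e ∧ IsPureMap (lam R p e c)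

/-- A regular ring `R` of prime characteristic `p` such that, for each prime `P`, the regular locus
of the domain `R ⧸ P` contains a nonempty open set (this holds when `R` is excellent) is F-pure
regular. -/
theorem result (R : Type u) [CommRing R] [IsRegularRing R] (p : ℕ) [Fact p.Prime] [CharP R p]
    (hJ : ∀ (P : Ideal R) [P.IsPrime], ∃ U : Set (PrimeSpectrum (R ⧸ P)), IsOpen U ∧ U.Nonempty ∧
      ∀ q ∈ U, IsRegularLocalRing (Localization.AtPrime q.asIdeal)) :
    IsFPureRegular R p := by
  intro c hc
  obtain ⟨e, he, h⟩ := Pool.Agent.Y76.FPR.main R p hJ c hc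
  refine ⟨e, he, fun P _ _ => ?_⟩
  rw [injective_iff_map_eq_zero]
  intro θ hθ
  obtain ⟨z, rfl⟩ := (TensorProduct.lid R P).symm.surjective θ
  rw [TensorProduct.lid_symm_apply, LinearMap.rTensor_tmul] at hθ
  have h1 : lam R p e c 1 = (c : R) := by
    change c * 1 ^ p ^ e = c
    rw [one_pow, mul_one]
  by_contra hne
  have hz : z ≠ 0 := by
    rintro rfl
    exact hne (map_zero _)
  refine h (FStar R p e) (AddEquiv.refl R) (fun r n => ?_) P z hz ?_
  · exact congrArg (fun a : R => HMul.hMul (α := R) (β := R) (γ := R) a n)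
      (iterateFrobenius_def p e r)
  · have h2 := congrArg (TensorProduct.comm R (FStar R p e) P) hθ
    rw [TensorProduct.comm_tmul, map_zero] at h2
    rw [h1] at h2
    exact h2

end Pool.Agent.Results.MP_9ff724_al.ExcellentRegular
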